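import Pool.Agent.H39.Newt.Stmts

/-! # Project NEWTON: module ARC (the leading term of `f(x(t))`) -/

set_option autoImplicit false

namespace Pool.Newt

open MvPolynomial Pool.Agent.H39.MonoR Pool.Agent.H75.Mono

theorem ARC_aeval_poly {k : Type} [Field k] [Algebra k ℂ] {σ I : Type} [Fintype σ] [Fintype I]
    (a : I → σ → ℕ) (c : I → k) {A : Type} [CommRing A] [Algebra k A] (x : σ → A) :
    aeval x (poly a c) = ∑ i, algebraMap k A (c i) * ∏ j, x j ^ a i j := by
  unfold poly
  rw [map_sum]
  refine Finset.sum_congr rfl fun i _ => ?_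
  rw [aeval_monomial, Finsupp.prod_fintype]
  · rfl
  · intro j
    exact pow_zero _

open Classical in
theorem ARC_aeval_fpoly {k : Type} [Field k] [Algebra k ℂ] {σ I : Type} [Fintype σ] [Fintype I]
    (a : I → σ → ℕ) (c : I → k) (w : σ → ℕ) {A : Type} [CommRing A] [Algebra k A] (x : σ → A) :
    aeval x (fpoly a c w) =
      ∑ i, if i ∈ face a w then algebraMap k A (c i) * ∏ j, x j ^ a i j else 0 := by
  unfold fpoly
  rw [map_sum]
  refine Finset.sum_congr rfl fun i _ => ?_
  split_ifs with h
  · rw [aeval_monomial, Finsupp.prod_fintype]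
    · rfl
    · intro j
      exact pow_zero _
  · rw [map_zero]

/-- the terms of `f(x(t))` for `x_j = t^(u_j) y_j` -/
theorem ARC_term {σ : Type} [Fintype σ] (u v : σ → ℕ) (y : σ → PowerSeries ℂ) :
    ∏ j, (PowerSeries.X ^ u j * y j) ^ v j = PowerSeries.X ^ dot u v * ∏ j, y j ^ v j := by
  have h1 : ∀ j, (PowerSeries.X ^ u j * y j) ^ v j =
      (PowerSeries.X : PowerSeries ℂ) ^ (u j * v j) * y j ^ v j := by
    intro j
    rw [mul_pow, ← pow_mul]
  simp only [h1]
  rw [Finset.prod_mul_distrib, Finset.prod_pow_eq_pow_sum]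
  rfl

theorem ARC_fact {σ : Type} (u : σ → ℕ) (x : σ → PowerSeries ℂ)
    (hx : ∀ j l, l < u j → PowerSeries.coeff l (x j) = 0) :
    ∃ y : σ → PowerSeries ℂ, (∀ j, x j = PowerSeries.X ^ u j * y j) ∧
      ∀ j, PowerSeries.constantCoeff (y j) = PowerSeries.coeff (u j) (x j) := by
  have h1 : ∀ j, ∃ y : PowerSeries ℂ, x j = PowerSeries.X ^ u j * y := by
    intro j
    exact PowerSeries.X_pow_dvd_iff.2 (hx j)
  choose y hy using h1
  refine ⟨y, hy, fun j => ?_⟩
  have h2 : PowerSeries.coeff (u j) (x j) = PowerSeries.coeff (u j) (PowerSeries.X ^ u j * y j) := by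
    rw [← hy j]
  rw [h2, ← PowerSeries.coeff_zero_eq_constantCoeff_apply]
  have h3 := PowerSeries.coeff_X_pow_mul (y j) (u j) 0
  rw [zero_add] at h3
  exact h3.symm

theorem s_Arc : SArc := by
  classical
  intro k _ _ σ I _ _ _ a c u x hx
  obtain ⟨y, hy, hy0⟩ := ARC_fact u x hx
  have hx' : x = fun j => PowerSeries.X ^ u j * y j := funext hy
  have key : ∀ l, PowerSeries.coeff l (aeval x (poly a c)) =
      ∑ i, algebraMap k ℂ (c i) * PowerSeries.coeff l
        (PowerSeries.X ^ dot u (a i) * ∏ j, y j ^ a i j) := by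
    intro l
    rw [ARC_aeval_poly, map_sum]
    refine Finset.sum_congr rfl fun i _ => ?_
    rw [hx']
    simp only
    rw [ARC_term, PowerSeries.algebraMap_apply, PowerSeries.coeff_C_mul]
  constructor
  · intro l hl
    rw [key]
    refine Finset.sum_eq_zero fun i _ => ?_
    rw [PowerSeries.coeff_X_pow_mul', if_neg, mul_zero]
    have := Nw_le a u i
    omega
  · rw [key, ARC_aeval_fpoly]
    refine Finset.sum_congr rfl fun i _ => ?_
    rw [PowerSeries.coeff_X_pow_mul']
    split_ifs with h1 h2 h2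
    · have h3 : Nw a u = dot u (a i) := Nw_eq h2
      rw [h3, Nat.sub_self, PowerSeries.coeff_zero_eq_constantCoeff_apply, map_prod]
      congr 1
      refine Finset.prod_congr rfl fun j _ => ?_
      rw [map_pow, hy0 j]
    · exfalso
      apply h2
      rw [mem_face_iff]
      have := Nw_le a u i
      omega
    · exfalso
      apply h1
      rw [Nw_eq h2]
    · rw [mul_zero]

end Pool.Newt
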