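import Pool.Agent.H39.Newt.Stmts
import Pool.Agent.H75.Mono.TR

/-! # Project NEWTON: module CLA (cylinders with `f(φ) = t^d`, `d = N(u)`) -/

set_option autoImplicit false

namespace Pool.Newt

open MvPolynomial Pool.Agent.H39.MonoR Pool.Agent.H75.Mono

section CLA

variable {k : Type} [Field k] [Algebra k ℂ] {σ : Type} [Fintype σ]

theorem CLA_icons_low {M : ℕ} (u : σ → ℕ) : ICons k {φ : σ × Fin M → ℂ |
    ∀ (i : σ) (l : Fin M), (l : ℕ) < u i → φ (i, l) = 0} := by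
  apply ICons.forall_fin
  intro i
  apply ICons.forall_fin
  intro l
  by_cases h : (l : ℕ) < u i
  · simp only [h, true_implies]
    exact ICons.eq (PFun.apply (k := k) (i, l)) PFun.zero
  · simp only [h, false_implies]
    exact ICons.univ

/-- the general shape: arcs which vanish to order `u_j` and whose coefficients at `u_j` lie in a
constructible set -/
theorem CLA_mo {M : ℕ} {u : σ → ℕ} (hu : ∀ j, u j < M) {A : Set (σ → ℂ)} (hA : ICons k A) :
    mo k {φ : σ × Fin M → ℂ | (∀ (i : σ) (l : Fin M), (l : ℕ) < u i → φ (i, l) = 0) ∧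
      (fun j => φ (j, ⟨u j, hu j⟩)) ∈ A} =
    ↑(Lu k ^ (((Fintype.card σ * (M - 1) : ℕ) : ℤ) - ((∑ j, u j : ℕ) : ℤ))) * mo k A := by
  have hlt : ∀ (i : σ) (l : Fin (M - 1 - u i)), u i + 1 + (l : ℕ) < M := by
    intro i l
    have := l.2
    omega
  let hi : (σ × Fin M → ℂ) → ((Σ i : σ, Fin (M - 1 - u i)) → ℂ) :=
    fun φ p => φ (p.1, ⟨u p.1 + 1 + p.2, hlt p.1 p.2⟩)
  let lo : (σ × Fin M → ℂ) → (σ → ℂ) := fun φ j => φ (j, ⟨u j, hu j⟩)
  have hhi : PMap k hi :=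
    PMap.pi fun p => PFun.apply (k := k) ((p.1, ⟨u p.1 + 1 + p.2, hlt p.1 p.2⟩) : σ × Fin M)
  have hlo : PMap k lo := PMap.pi fun j => PFun.apply (k := k) ((j, ⟨u j, hu j⟩) : σ × Fin M)
  have hf : PMap k (fun φ => (lo φ, hi φ)) := hlo.prodMk hhi
  have hB : ICons k {y : (σ → ℂ) × ((Σ i : σ, Fin (M - 1 - u i)) → ℂ) |
      y.1 ∈ A ∧ y.2 ∈ (Set.univ : Set ((Σ i : σ, Fin (M - 1 - u i)) → ℂ))} :=
    ICons.prod hA ICons.univ
  have hS : ICons k {φ : σ × Fin M → ℂ | (∀ (i : σ) (l : Fin M), (l : ℕ) < u i → φ (i, l) = 0) ∧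
      lo φ ∈ A} := ICons.and (CLA_icons_low u) (hA.mem hlo)
  rw [mo_bij hS hB hf ⟨?_, ?_, ?_⟩, mo_prod hA ICons.univ, mo_univ_pi, mul_comm]
  · congr 3
    rw [Nat.card_eq_fintype_card, Fintype.card_sigma]
    simp only [Fintype.card_fin]
    have h1 : ∀ j, ((M - 1 - u j : ℕ) : ℤ) = ((M - 1 : ℕ) : ℤ) - (u j : ℤ) := by
      intro j
      have := hu j
      omega
    rw [Nat.cast_sum, Finset.sum_congr rfl fun j _ => h1 j, Finset.sum_sub_distrib,
      Finset.sum_const, Finset.card_univ, nsmul_eq_mul, Nat.cast_mul, Nat.cast_sum]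
  · intro φ hφ
    exact ⟨hφ.2, Set.mem_univ _⟩
  · rintro φ ⟨h0, -⟩ φ' ⟨h0', -⟩ hxy
    simp only [Prod.mk.injEq] at hxy
    obtain ⟨h1, h3⟩ := hxy
    funext p
    obtain ⟨i, l, hl⟩ := p
    rcases lt_trichotomy l (u i) with hl1 | hl1 | hl1
    · exact (h0 i ⟨l, hl⟩ hl1).trans (h0' i ⟨l, hl⟩ hl1).symm
    · subst hl1
      exact congrFun h1 i
    · have h4 := congrFun h3 ⟨i, ⟨l - (u i + 1), by omega⟩⟩
      have h6 : (⟨u i + 1 + (l - (u i + 1)), by omega⟩ : Fin M) = ⟨l, hl⟩ := by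
        simp only [Fin.mk.injEq]; omega
      simp only [hi, h6] at h4
      exact h4
  · rintro ⟨z, χ⟩ ⟨hy, -⟩
    let x : σ × Fin M → ℂ := fun p => if h1 : (p.2 : ℕ) < u p.1 then 0
      else if h2 : (p.2 : ℕ) = u p.1 then z p.1
      else χ ⟨p.1, ⟨p.2 - (u p.1 + 1), by have := p.2.2; omega⟩⟩
    have h1 : lo x = z := by
      funext j
      simp [x, lo]
    have h2 : hi x = χ := by
      funext p
      obtain ⟨i, l, hl⟩ := p
      have h6 : ¬ (u i + 1 + l < u i) := by omega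
      have h7 : ¬ (u i + 1 + l = u i) := by omega
      simp [x, hi, h6, h7]
    refine ⟨x, ⟨?_, ?_⟩, ?_⟩
    · intro i l hl
      simp [x, hl]
    · rw [h1]
      exact hy
    · simp only [h1, h2]

omit [Fintype σ] in
/-- the conditions of `Cyl` in terms of the coordinates -/
theorem CLA_cyl {M : ℕ} {u : σ → ℕ} (hu : ∀ j, u j < M) (F : Finset σ) (φ : σ × Fin M → ℂ) :
    φ ∈ Cyl u F ↔ (∀ (i : σ) (l : Fin M), (l : ℕ) < u i → φ (i, l) = 0) ∧
      ∀ j, j ∉ F → φ (j, ⟨u j, hu j⟩) ≠ 0 := by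
  have hc : ∀ (j : σ) (l : ℕ) (hl : l < M), PowerSeries.coeff l (arc φ j) = φ (j, ⟨l, hl⟩) := by
    intro j l hl
    rw [coeff_arc, dif_pos hl]
  constructor
  · intro h
    refine ⟨fun i l hl => ?_, fun j hj => ?_⟩
    · rw [← hc i l l.2]
      exact (h i).1 l hl
    · rw [← hc j (u j) (hu j)]
      exact (h j).2 hj
  · rintro ⟨h1, h2⟩ j
    refine ⟨fun l hl => ?_, fun hj => ?_⟩
    · rw [hc j l (hl.trans (hu j))]
      exact h1 j ⟨l, hl.trans (hu j)⟩ hl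
    · rw [hc j (u j) (hu j)]
      exact h2 j hj

theorem CLA_pfun_aeval (p : MvPolynomial σ k) : PFun k (fun z : σ → ℂ => aeval z p) :=
  ⟨p, fun _ => rfl⟩

theorem CLA_icons (F : Finset σ) (p : MvPolynomial σ k) (v : k) :
    ICons k {z : σ → ℂ | (∀ j, j ∉ F → z j ≠ 0) ∧ aeval z p = algebraMap k ℂ v} := by
  refine ICons.and ?_ (ICons.eq (CLA_pfun_aeval p) (PFun.const v))
  apply ICons.forall_fin
  intro j
  by_cases h : j ∈ F
  · simp only [h, not_true, false_implies]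
    exact ICons.univ
  · simp only [h, not_false_iff, true_implies]
    exact ICons.ne (PFun.apply (k := k) j) PFun.zero

end CLA

theorem s_Cla (hArc : SArc) : SCla := by
  intro k _ _ σ I _ _ _ a c u F d M hd hu hM
  have hA : ICons k {z : σ → ℂ | (∀ j, j ∉ F → z j ≠ 0) ∧ aeval z (fpoly a c u) = 1} := by
    have h := CLA_icons (k := k) F (fpoly a c u) 1
    rwa [map_one] at h
  rw [← CLA_mo hu hA]
  congr 1
  ext φ
  show (φ ∈ Cyl u F ∧ Hit (poly a c) d φ 1) ↔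
    ((∀ (i : σ) (l : Fin M), (l : ℕ) < u i → φ (i, l) = 0) ∧
      ((∀ j, j ∉ F → φ (j, ⟨u j, hu j⟩) ≠ 0) ∧
        aeval (fun j => φ (j, ⟨u j, hu j⟩)) (fpoly a c u) = 1))
  rw [CLA_cyl hu, and_assoc]
  refine and_congr_right fun h0 => and_congr_right fun _ => ?_
  have hlow : ∀ j l, l < u j → PowerSeries.coeff l (arc φ j) = 0 := by
    intro j l hl
    rw [coeff_arc, dif_pos (hl.trans (hu j))]
    exact h0 j ⟨l, hl.trans (hu j)⟩ hl
  obtain ⟨h1, h2⟩ := hArc k σ I a c u (arc φ) hlow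
  have h3 : (fun j => PowerSeries.coeff (u j) (arc φ j)) = fun j => φ (j, ⟨u j, hu j⟩) := by
    funext j
    rw [coeff_arc, dif_pos (hu j)]
  rw [h3] at h2
  rw [hit_iff, ← h2, hd]
  constructor
  · exact fun h => h.2
  · exact fun h => ⟨fun l hl => h1 l (by omega), h⟩

end Pool.Newt
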